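import Pool.Agent.Y170.NA.One

/-!
# Smooth homeomorphisms of corank at most one between closed manifolds

The assembly of the step of `Pool.Agent.Y170.NA` (project CO): a smooth bijection of corank at most
one between closed manifolds is approximated by diffeomorphisms.
-/

set_option autoImplicit false

open Set Filter Topology Metric Function
open scoped Manifold ContDiff

noncomputable section

namespace Pool.Agent.Q133.CO

open Pool.Agent.Y522 Pool.Agent.Y522.NA Pool.Agent.Y170.NA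

variable {m : ℕ} {X Y : Type} [TopologicalSpace X] [T2Space X] [ChartedSpace (E (m + 1)) X]
  [IsManifold (𝓡 (m + 1)) ∞ X] [TopologicalSpace Y] [ChartedSpace (E (m + 1)) Y]
  [IsManifold (𝓡 (m + 1)) ∞ Y]

theorem exists_dat (f : X → Y) (hf : ContMDiff (𝓡 (m + 1)) (𝓡 (m + 1)) ∞ f)
    (hinj : Injective f) (x : X)
    (hrk : m ≤ Module.finrank ℝ
      (LinearMap.range (mfderiv (𝓡 (m + 1)) (𝓡 (m + 1)) f x).toLinearMap)) :
    ∃ D : Dat m f, (D.A 0 : X) = x := by
  let Df : E (m + 1) →L[ℝ] E (m + 1) := mfderiv (𝓡 (m + 1)) (𝓡 (m + 1)) f x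
  have hDf : HasMFDerivAt (𝓡 (m + 1)) (𝓡 (m + 1)) f x Df :=
    (hf.mdifferentiableAt (by simp)).hasMFDerivAt
  set e := chartAt (E (m + 1)) (f x) with he
  have hfe : f x ∈ e.source := mem_chart_source _ _
  have heLD : ∀ y ∈ e.source, LD (m + 1) (e : Y → E (m + 1)) y := fun y hy =>
    Pool.Agent.Y66.CM.LD_chart _ y hy
  have : LocallyCompactSpace X := ChartedSpace.locallyCompactSpace (E (m + 1)) X
  obtain ⟨K, hK, hxK, hKV⟩ := exists_compact_subset (e.open_source.preimage hf.continuous)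
    (show x ∈ f ⁻¹' e.source from hfe)
  let U : TopologicalSpace.Opens X := ⟨interior K, isOpen_interior⟩
  have hcl : ∀ y ∈ closure (U : Set X), f y ∈ e.source := by
    intro y hy
    have h1 : closure (interior K) ⊆ K := by
      refine (closure_mono interior_subset).trans ?_
      rw [hK.isClosed.closure_eq]
    exact hKV (h1 hy)
  have hU : ∀ u : U, f u ∈ e.source := fun u => hcl _ (subset_closure u.2)
  have hFs : ∀ u : U, ContMDiffAt (𝓡 (m + 1)) (𝓡 (m + 1)) ∞ (fun u : U => e (f u)) u := fun u =>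
    (heLD _ (hU u)).contMDiffAt.comp u (hf.contMDiffAt.comp u contMDiff_subtype_val.contMDiffAt)
  have hFc : Continuous (fun u : U => e (f u)) :=
    continuous_iff_continuousAt.mpr fun u => (hFs u).continuousAt
  have hFi : Injective (fun u : U => e (f u)) := fun u v huv =>
    Subtype.ext (hinj (e.injOn (hU u) (hU v) huv))
  have hxU : x ∈ U := hxK
  -- differentials
  have he0 : LD (m + 1) (e : Y → E (m + 1)) (f x) := heLD _ hfe
  let De : E (m + 1) →L[ℝ] E (m + 1) := mfderiv (𝓡 (m + 1)) (𝓡 (m + 1)) (e : Y → E (m + 1)) (f x)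
  have hDe : Injective De := he0.mfderiv_injective
  have hval : LD (m + 1) (Subtype.val : U → X) ⟨x, hxU⟩ := LD_val U _
  let Dv : E (m + 1) →L[ℝ] E (m + 1) :=
    mfderiv (𝓡 (m + 1)) (𝓡 (m + 1)) (Subtype.val : U → X) ⟨x, hxU⟩
  have hDv : Injective Dv := hval.mfderiv_injective
  have hDvs : Surjective Dv := by
    have := LinearMap.injective_iff_surjective (f := Dv.toLinearMap)
    exact this.mp hDv
  obtain ⟨P, hP⟩ := exists_proj (LinearMap.range (De.toLinearMap ∘ₗ Df.toLinearMap)) (by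
    rw [LinearMap.range_comp]
    have h1 : Module.finrank ℝ (Submodule.map De.toLinearMap (LinearMap.range Df.toLinearMap)) =
        Module.finrank ℝ (LinearMap.range Df.toLinearMap) :=
      (LinearEquiv.finrank_eq (Submodule.equivMapOfInjective De.toLinearMap hDe _)).symm
    rw [h1]
    exact hrk)
  have hPs : ∀ᶠ y in 𝓝 (⟨x, hxU⟩ : U),
      ContMDiffAt (𝓡 (m + 1)) (𝓡 m) ∞ (fun u : U => P (e (f u))) y :=
    Eventually.of_forall fun u =>
      ContMDiffAt.comp (g := fun w : E (m + 1) => P w) u P.contMDiff.contMDiffAt (hFs u)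
  have hPd : Surjective (mfderiv (𝓡 (m + 1)) (𝓡 m) (fun u : U => P (e (f u))) ⟨x, hxU⟩) := by
    have hd' : mfderiv (𝓡 (m + 1)) (𝓡 m) (fun u : U => P (e (f u))) ⟨x, hxU⟩ =
        P ∘L (De ∘L (Df ∘L Dv)) := by
      have d1 : HasMFDerivAt (𝓡 (m + 1)) (𝓡 (m + 1)) (Subtype.val : U → X) ⟨x, hxU⟩ Dv :=
        hval.mdifferentiableAt.hasMFDerivAt
      have d2 : HasMFDerivAt (𝓡 (m + 1)) (𝓡 (m + 1)) f ((⟨x, hxU⟩ : U) : X) Df := hDf
      have d3 : HasMFDerivAt (𝓡 (m + 1)) (𝓡 (m + 1)) (e : Y → E (m + 1))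
          (f ((⟨x, hxU⟩ : U) : X)) De := he0.mdifferentiableAt.hasMFDerivAt
      have d4 : HasMFDerivAt (𝓡 (m + 1)) (𝓡 m) (fun w : E (m + 1) => P w)
          (e (f ((⟨x, hxU⟩ : U) : X))) P := P.hasFDerivAt.hasMFDerivAt
      have c1 : HasMFDerivAt (𝓡 (m + 1)) (𝓡 (m + 1)) (fun u : U => f u) ⟨x, hxU⟩ (Df ∘L Dv) :=
        HasMFDerivAt.comp (g := f) (f := (Subtype.val : U → X)) (⟨x, hxU⟩ : U) d2 d1
      have c2 : HasMFDerivAt (𝓡 (m + 1)) (𝓡 (m + 1)) (fun u : U => e (f u)) ⟨x, hxU⟩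
          (De ∘L (Df ∘L Dv)) :=
        HasMFDerivAt.comp (g := (e : Y → E (m + 1))) (f := fun u : U => f u) (⟨x, hxU⟩ : U) d3 c1
      exact (HasMFDerivAt.comp (g := fun w : E (m + 1) => P w) (f := fun u : U => e (f u))
        (⟨x, hxU⟩ : U) d4 c2).mfderiv
    rw [hd']
    intro y
    obtain ⟨w, ⟨v, hv⟩, hw⟩ := hP y
    obtain ⟨v', hv'⟩ := hDvs v
    refine ⟨v', ?_⟩
    show P (De (Df (Dv v'))) = y
    rw [hv', ← hw, ← hv]
    rfl
  obtain ⟨A, L, b, hA, hNB⟩ := Pool.Agent.Y47.SH.nbox m U (fun u : U => e (f u)) hFc hFi ⟨x, hxU⟩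
    ⟨P, hPs, hPd⟩
  obtain ⟨η, hη, hstep⟩ := hStep m U (fun u : U => e (f u)) A L b hFc hNB
  exact ⟨⟨U, f x, A, L, b, η, hcl, hNB, hη, hstep⟩, congrArg Subtype.val hA⟩

/-- **Smooth homeomorphisms of corank at most one between closed manifolds are approximated by
diffeomorphisms.** -/
theorem co : StCO := by
  intro m X Y _ _ _ _ _ _ _ _ _ f hf hbij hrk O hO hfO
  classical
  have hex : ∀ x : X, ∃ D : Dat m f, (D.A 0 : X) = x :=
    fun x => exists_dat f hf hbij.1 x (hrk x)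
  choose D hD using hex
  -- the finite cover
  have haLD : ∀ x, ∀ z ∈ box m 1 1, LD (m + 1) (fun w => ((D x).A w : X)) z := fun x z hz =>
    LD.comp_fun (LD_val _ _) ((D x).nb.ld z hz)
  have hopen : ∀ x, IsOpen ((fun w => ((D x).A w : X)) ''
      {z : E (m + 1) | ‖tl z‖ < 1 / 4 ∧ |z 0| < 1 / 4}) := by
    intro x
    apply isOpen_image_of_LD (n := m + 1) (Pool.Agent.Y870.SH.open_small_box (1 / 4))
    intro z hz
    apply haLD x
    exact ⟨by have := hz.1; linarith, by have := hz.2; linarith⟩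
  obtain ⟨t, ht⟩ := isCompact_univ.elim_finite_subcover
    (fun x : X => (fun w => ((D x).A w : X)) ''
      {z : E (m + 1) | ‖tl z‖ < 1 / 4 ∧ |z 0| < 1 / 4})
    hopen
    (by
      intro x _
      rw [mem_iUnion]
      refine ⟨x, 0, ⟨?_, ?_⟩, hD x⟩
      · rw [map_zero, norm_zero]; norm_num
      · change |(0:ℝ)| < 1 / 4
        rw [abs_zero]; norm_num)
  set N := t.card with hNdef
  let D' : Fin N → Dat m f := fun i => D (t.equivFin.symm i : X)
  have hcov : ∀ x : X, ∃ i : Fin N, ∃ z ∈ box m (1 / 4) (1 / 4), ((D' i).A z : X) = x := by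
    intro x
    have h1 := ht (mem_univ x)
    simp only [mem_iUnion] at h1
    obtain ⟨y, hy, z, hz, hzx⟩ := h1
    refine ⟨t.equivFin ⟨y, hy⟩, z, ⟨hz.1.le, hz.2.le⟩, ?_⟩
    show ((D (t.equivFin.symm (t.equivFin ⟨y, hy⟩) : X)).A z : X) = x
    rw [Equiv.symm_apply_apply]
    exact hzx
  -- the neighbourhood of the graph
  let W : Fin N → Set (X × Y) := fun j =>
    {p | p.1 ∉ closure ((D' j).U : Set X)} ∪
    (((f ⁻¹' (chartAt (E (m + 1)) (D' j).y0).source) ×ˢ
      (chartAt (E (m + 1)) (D' j).y0).source) ∩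
      (fun p : X × Y => ‖chartAt (E (m + 1)) (D' j).y0 p.2 -
        chartAt (E (m + 1)) (D' j).y0 (f p.1)‖) ⁻¹' (Iio (D' j).η))
  have hW : ∀ j, IsOpen (W j) := by
    intro j
    refine IsOpen.union ?_ ?_
    · exact isClosed_closure.isOpen_compl.preimage continuous_fst
    · set e := chartAt (E (m + 1)) (D' j).y0 with he
      have h1 : IsOpen ((f ⁻¹' e.source) ×ˢ e.source) :=
        (e.open_source.preimage hf.continuous).prod e.open_source
      refine ContinuousOn.isOpen_inter_preimage ?_ h1 isOpen_Iio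
      have c1 : ContinuousOn (fun p : X × Y => e p.2) ((f ⁻¹' e.source) ×ˢ e.source) :=
        e.continuousOn.comp continuous_snd.continuousOn fun p hp => hp.2
      have c2 : ContinuousOn (fun p : X × Y => e (f p.1)) ((f ⁻¹' e.source) ×ˢ e.source) :=
        e.continuousOn.comp (hf.continuous.comp continuous_fst).continuousOn fun p hp => hp.1
      exact (c1.sub c2).norm
  obtain ⟨O', hO'd⟩ : ∃ O' : Set (X × Y), O' = O ∩ ⋂ j, W j := ⟨_, rfl⟩
  have hO' : IsOpen O' := by
    rw [hO'd]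
    exact hO.inter (isOpen_iInter_of_finite hW)
  have hfO' : ∀ x, (x, f x) ∈ O' := by
    intro x
    rw [hO'd]
    refine ⟨hfO x, mem_iInter.2 fun j => ?_⟩
    by_cases hx : x ∈ closure ((D' j).U : Set X)
    · refine Or.inr ⟨⟨(D' j).clo x hx, (D' j).clo x hx⟩, ?_⟩
      show ‖chartAt (E (m + 1)) (D' j).y0 (f x) - chartAt (E (m + 1)) (D' j).y0 (f x)‖ < _
      rw [sub_self, norm_zero]
      exact (D' j).pos
    · exact Or.inl hx
  have hOD : ∀ p ∈ O', ∀ j, p.1 ∈ closure ((D' j).U : Set X) →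
      p.2 ∈ (chartAt (E (m + 1)) (D' j).y0).source ∧
      ‖chartAt (E (m + 1)) (D' j).y0 p.2 - chartAt (E (m + 1)) (D' j).y0 (f p.1)‖ < (D' j).η := by
    intro p hp j hpj
    rw [hO'd] at hp
    rcases mem_iInter.1 hp.2 j with h | h
    · exact absurd hpj h
    · exact ⟨h.1.2, h.2⟩
  have hind : ∀ k : ℕ, k ≤ N → ∃ G : X → Y, Inv m f D' O' k G := by
    intro k
    induction k with
    | zero =>
      intro _
      refine ⟨f, hf, hbij, hfO', ?_, fun i hi => absurd hi (Nat.not_lt_zero _)⟩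
      intro j z hz
      have := Pool.Agent.Y870.SH.NBox_fderiv (D' j).nb hz
      have h2 : fderiv ℝ (fun w => tl ((D' j).L (chartAt (E (m + 1)) (D' j).y0
        (f ((D' j).A w : X))))) z = tl := this
      rw [h2, sub_self, norm_zero]
      exact (D' j).pos
    | succ k ih =>
      intro hk
      obtain ⟨G, hG⟩ := ih (by omega)
      exact step_one f D' O' hO' hOD k (by omega) G hG
  obtain ⟨G, hG⟩ := hind N le_rfl
  refine ⟨G, fun x => ?_, hG.bij, fun x => ?_⟩
  · have h := hG.gr x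
    rw [hO'd] at h
    exact h.1
  · obtain ⟨i, z, hz, rfl⟩ := hcov x
    exact hG.good i i.2 z hz

end Pool.Agent.Q133.CO
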